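import Pool.Agent.Helper805.Nuc.Free
import Pool.Agent.Helper805.Nuc.Reduce
import Pool.Agent.Helper805.NucCert.Super
import Pool.Agent.Helper805.Mod.Wit

set_option autoImplicit false

/-! Elements of the ideal generated by the commutators with the nucleus which are independent modulo
the nucleus. -/

namespace Pool.Agent.Y850.ZN

open Pool.Agent.Helper805.Nuc Pool.Agent.Helper805.Nuc.Tens Pool.Agent.Helper805.Nuc.NFun
  Pool.Agent.Helper805.Nuc.Alt Pool.Agent.Helper805.Nuc.Free Pool.Agent.Helper805.Mod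

section general

variable {A : Type} [NonUnitalNonAssocRing A]

lemma as_zsmul1 (m : ℤ) (a b c : A) : as (m • a) b c = m • as a b c := by
  unfold as; simp only [smul_mul_assoc, smul_sub]

lemma br_zsmul1 (m : ℤ) (a b : A) : br (m • a) b = m • br a b := by
  unfold br; simp only [smul_mul_assoc, mul_smul_comm, smul_sub]

/-- the nuclear element -/
def nn (w : Fin 10 → A) : A :=
  (2 * 373248 : ℤ) • nf (fun i : Fin 5 => w (Fin.castLE (by norm_num) i)) (w 5)

/-- the element `[n, w 6] (w 7)` -/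
def zz (w : Fin 10 → A) : A := br (nn w) (w 6) * w 7

lemma nn_nuc (hA : IsAlt A) (w : Fin 10 → A) : IsNuc (nn w) := by
  intro a b
  unfold nn
  rw [as_zsmul1]
  refine Reduce.nuc_of_cert 373248 ?_ _ hA _ _ a b
  intro R _ P hP x hx y hy z hz
  exact Pool.Agent.Helper805.NucCert.nuc_super hP hx hz hy

lemma as_zz (hA : IsAlt A) (w : Fin 10 → A) (a b : A) :
    as (zz w) a b = (2 * 373248 : ℤ) • (br (nf (fun i : Fin 5 => w (Fin.castLE (by norm_num) i))
      (w 5)) (w 6) * as (w 7) a b) := by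
  have hc : IsNuc (br (nn w) (w 6)) := (nn_nuc hA w).comm hA _
  unfold zz
  rw [hc.mul_left hA]
  unfold nn
  rw [br_zsmul1, smul_mul_assoc]

lemma map_zz {B : Type} [NonUnitalNonAssocRing B] (g : A →ₙ+* B) (w : Fin 10 → A) :
    g (zz w) = zz (fun i => g (w i)) := by
  unfold zz nn
  rw [map_mul, Clean.map_br, map_zsmul, Clean.map_nf]

lemma zz_zero : zz (fun _ => (0 : A)) = 0 := by
  unfold zz
  rw [mul_zero]

variable {Φ : Type} [CommRing Φ] [Module Φ A] [IsScalarTower Φ A A] [SMulCommClass Φ A A]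

lemma isIdeal_idealGen (S : Set A) : IsIdeal Φ A (idealGen Φ A S) := by
  intro a x hx
  unfold idealGen at *
  simp only [Submodule.mem_sInf] at *
  exact ⟨fun I hI => (hI.1 a x (hx I hI)).1, fun I hI => (hI.1 a x (hx I hI)).2⟩

lemma sub_idealGen (S : Set A) {s : A} (hs : s ∈ S) : s ∈ idealGen Φ A S := by
  unfold idealGen
  simp only [Submodule.mem_sInf]
  exact fun I hI => hI.2 hs

lemma zz_mem (hA : IsAlt A) (w : Fin 10 → A) : zz w ∈ ZN Φ A := by
  refine (isIdeal_idealGen _ (w 7) _ (sub_idealGen _ ?_)).2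
  exact ⟨nn w, (mem_nucleus hA).mpr (nn_nuc hA w), w 6, rfl⟩

end general

/-- The independence modulo the nucleus of the elements `zz` in disjoint sets of generators. -/
theorem indep (Φ : Type) [CommRing Φ] (X I : Type) (ι : I × Fin 9 ↪ X) (c : I →₀ Φ)
    (hc : (c.sum fun i r => r • zz (fun j => (FreeAlt.gen (ι (i, Wit.jx j)) : FreeAlt Φ X))) ∈
      nucleus Φ (FreeAlt Φ X)) (i₀ : I) : IsNilpotent (6 * c i₀) := by
  classical
  by_contra hnil
  rw [nilpotent_iff_mem_prime] at hnil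
  push Not at hnil
  obtain ⟨P, hP, h6P⟩ := hnil
  let K : Type := FractionRing (Φ ⧸ P)
  let φ : Φ →+* K := (algebraMap (Φ ⧸ P) K).comp (Ideal.Quotient.mk P)
  have hφ : ∀ x : Φ, φ x = 0 → x ∈ P := by
    intro x hx
    have h2 : (algebraMap (Φ ⧸ P) K) (Ideal.Quotient.mk P x) = 0 := hx
    rw [map_eq_zero_iff _ (IsFractionRing.injective (Φ ⧸ P) K)] at h2
    exact Ideal.Quotient.eq_zero_iff_mem.mp h2
  have hK6 : (6 : K) ≠ 0 := by
    intro h
    apply h6P
    refine P.mul_mem_right _ (hφ 6 ?_)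
    rw [map_ofNat]; exact h
  have hKc : φ (c i₀) ≠ 0 := fun h => h6P (P.mul_mem_left _ (hφ _ h))
  have hK2 : (2 : K) ≠ 0 := by
    intro h
    apply hK6
    have : (6 : K) = 2 * 3 := by norm_num
    rw [this, h, zero_mul]
  have hK3 : (3 : K) ≠ 0 := by
    intro h
    apply hK6
    have : (6 : K) = 2 * 3 := by norm_num
    rw [this, h, mul_zero]
  obtain ⟨v, hv⟩ := Wit.witness K hK6
  letI : Module Φ (Env.BS K) := Module.compHom (Env.BS K) φ
  haveI : IsScalarTower Φ (Env.BS K) (Env.BS K) := ⟨fun r a b => smul_mul_assoc (φ r) a b⟩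
  haveI : SMulCommClass Φ (Env.BS K) (Env.BS K) := ⟨fun r a b => (mul_smul_comm (φ r) a b).symm⟩
  let f : X → Env.BS K := fun x => if h : ∃ i, ι (i₀, i) = x then v h.choose else (0 : Env.BS K)
  have hf : ∀ i, f (ι (i₀, i)) = v i := by
    intro i
    have h : ∃ j, ι (i₀, j) = ι (i₀, i) := ⟨i, rfl⟩
    show (if h : ∃ j, ι (i₀, j) = ι (i₀, i) then v h.choose else 0) = v i
    rw [dif_pos h]
    have h2 := ι.injective h.choose_spec
    exact congrArg v (Prod.mk.inj h2).2
  have hf0 : ∀ i j, i ≠ i₀ → f (ι (i, j)) = 0 := by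
    intro i j hi
    refine dif_neg ?_
    rintro ⟨j', hj'⟩
    exact hi (Prod.mk.inj (ι.injective hj')).1.symm
  let g : FreeAlt Φ X →ₙₐ[Φ] Env.BS K := FreeAlt.lift (Env.BS_alt K hK2) f
  let g' : FreeAlt Φ X →ₙ+* Env.BS K :=
    { toFun := g, map_mul' := map_mul g, map_zero' := map_zero g, map_add' := map_add g }
  have hg : ∀ i, g' (FreeAlt.gen (ι (i₀, i))) = v i := fun i =>
    (FreeAlt.lift_gen (Env.BS_alt K hK2) f (ι (i₀, i))).trans (hf i)
  have hg0 : ∀ i j, i ≠ i₀ → g' (FreeAlt.gen (ι (i, j))) = 0 := fun i j hi =>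
    (FreeAlt.lift_gen (Env.BS_alt K hK2) f (ι (i, j))).trans (hf0 i j hi)
  have hgs : ∀ (r : Φ) (a : FreeAlt Φ X), g' (r • a) = φ r • g' a := fun r a => map_smul g r a
  -- the image of the sum
  have hsum : g' (c.sum fun i r => r • zz (fun j => (FreeAlt.gen (ι (i, Wit.jx j)) : FreeAlt Φ X))) =
      φ (c i₀) • zz (fun j => v (Wit.jx j)) := by
    rw [Finsupp.sum, map_sum]
    rw [Finset.sum_eq_single i₀]
    · rw [hgs, map_zz]
      simp only [hg]
    · intro i _ hi
      rw [hgs, map_zz]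
      have h : (fun j => g' (FreeAlt.gen (ι (i, Wit.jx j)))) = fun _ => (0 : Env.BS K) := by
        funext j
        exact hg0 i _ hi
      rw [h, zz_zero, smul_zero]
    · intro hi
      rw [Finsupp.notMem_support_iff.1 hi, zero_smul, map_zero]
  have h1 := (hc (FreeAlt.gen (ι (i₀, Wit.jx 8))) (FreeAlt.gen (ι (i₀, Wit.jx 9)))).1
  have h2 := congrArg g' h1
  rw [Clean.map_as, hsum, hg, hg, map_zero] at h2
  have h3 : as (φ (c i₀) • zz (fun j => v (Wit.jx j))) (v (Wit.jx 8)) (v (Wit.jx 9)) =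
      φ (c i₀) • as (zz (fun j => v (Wit.jx j))) (v (Wit.jx 8)) (v (Wit.jx 9)) := by
    unfold as
    simp only [smul_mul_assoc, smul_sub]
  rw [h3] at h2
  have h4 := (smul_eq_zero.mp h2).resolve_left hKc
  rw [as_zz (Env.BS_alt K hK2)] at h4
  apply hv
  have h5 : ((2 * 373248 : ℤ) : K) ≠ 0 := by
    have h6 : ((2 * 373248 : ℤ) : K) = 2 ^ 10 * 3 ^ 6 := by norm_num
    rw [h6]
    exact mul_ne_zero (pow_ne_zero _ hK2) (pow_ne_zero _ hK3)
  rw [← Int.cast_smul_eq_zsmul K] at h4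
  exact (smul_eq_zero.mp h4).resolve_left h5

/-- linear independence modulo the nucleus -/
theorem exists_indep (Φ : Type) [CommRing Φ] (hΦ : ∀ c : Φ, IsNilpotent (6 * c) → c = 0)
    (X I : Type) (ι : I × Fin 9 ↪ X) :
    ∃ z : I → FreeAlt Φ X, (∀ i, z i ∈ ZN Φ (FreeAlt Φ X)) ∧
      LinearIndependent Φ (fun i => (nucleus Φ (FreeAlt Φ X)).mkQ (z i)) := by
  refine ⟨fun i => zz (fun j => (FreeAlt.gen (ι (i, Wit.jx j)) : FreeAlt Φ X)),
    fun i => zz_mem FreeAlt.isAlt _, ?_⟩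
  rw [linearIndependent_iff]
  intro l hl
  ext i
  refine hΦ _ (indep Φ X I ι l ?_ i)
  rw [← Submodule.ker_mkQ (nucleus Φ (FreeAlt Φ X)), LinearMap.mem_ker, Finsupp.sum, map_sum]
  rw [Finsupp.linearCombination_apply, Finsupp.sum] at hl
  rw [← hl]
  exact Finset.sum_congr rfl fun i _ => map_smul _ _ _

/-- for infinite sets of generators there are as many independent elements as generators -/
theorem exists_emb (X : Type) [Infinite X] : Nonempty (X × Fin 9 ↪ X) := by
  rw [← Cardinal.le_def, Cardinal.mk_prod, Cardinal.lift_id, Cardinal.lift_id]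
  refine (Cardinal.mul_eq_left (Cardinal.aleph0_le_mk X) ?_ ?_).le
  · refine le_trans ?_ (Cardinal.aleph0_le_mk X)
    rw [Cardinal.mk_fin]
    exact (Cardinal.natCast_lt_aleph0 (n := 9)).le
  · rw [Cardinal.mk_fin]
    norm_num

end Pool.Agent.Y850.ZN
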